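import Pool.Agent.Helper98.LogPoly.Defs

/-! Piece P7 PATHLAW of MP_b30792_pr: the combinatorial identities for path sums. -/

set_option autoImplicit false

namespace Pool.Agent.Helper98.LogPoly

namespace PL

theorem pos_zero {N : ℕ} (s : Fin N → Fin 4) : pos s 0 = 0 := by simp [pos]

theorem pos_cons {N : ℕ} (i : Fin 4) (s : Fin N → Fin 4) (n : ℕ) :
    pos (Fin.cons i s : Fin (N + 1) → Fin 4) (n + 1) = stp i + pos s n := by
  simp [pos, Fin.sum_univ_succ]

theorem sum_cons {M : Type*} [AddCommMonoid M] {N : ℕ} (F : (Fin (N + 1) → Fin 4) → M) :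
    ∑ s, F s = ∑ i : Fin 4, ∑ s : Fin N → Fin 4, F (Fin.cons i s) := by
  rw [← (Fin.consEquiv (fun _ => Fin 4)).sum_comp, Fintype.sum_prod_type]
  rfl

theorem EP_const_mul' (k : ℕ) (c : ℝ) (F : List Pt → ℝ) (x : Pt) :
    EP k (fun l => c * F l) x = c * EP k F x := by
  induction k generalizing F x with
  | zero => rfl
  | succ k ih =>
    show (1 / 4) * ∑ i : Fin 4, EP k (fun l => c * F ((x + stp i) :: l)) (x + stp i) =
      c * ((1 / 4) * ∑ i : Fin 4, EP k (fun l => F ((x + stp i) :: l)) (x + stp i))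
    simp only [ih, ← Finset.mul_sum]
    ring

theorem EP_wt_eq (β : ℝ) (N : ℕ) (e : ℕ → Pt → ℝ) (x : Pt) :
    EP N (fun l => wt β e l) x = (1 / 4 : ℝ) ^ N * ∑ s : Fin N → Fin 4,
      Real.exp (∑ n ∈ Finset.range N, (β * e n (x + pos s (n + 1)) - β ^ 2 / 2)) := by
  induction N generalizing e x with
  | zero => simp [EP, wt]
  | succ N ih =>
    have h1 : EP (N + 1) (fun l => wt β e l) x = (1 / 4) * ∑ i : Fin 4,
        EP N (fun l => Real.exp (β * e 0 (x + stp i) - β ^ 2 / 2) *
          wt β (fun n => e (n + 1)) l) (x + stp i) := rfl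
    rw [h1, sum_cons, pow_succ' (1 / 4 : ℝ) N]
    simp only [EP_const_mul', ih, Finset.mul_sum]
    refine Finset.sum_congr rfl fun i _ => Finset.sum_congr rfl fun s _ => ?_
    rw [Finset.sum_range_succ', pos_cons, pos_zero, add_zero, Real.exp_add]
    have h2 : ∀ n, x + pos (Fin.cons i s : Fin (N + 1) → Fin 4) (n + 1 + 1) =
        x + stp i + pos s (n + 1) := by
      intro n
      rw [pos_cons]
      abel
    simp only [h2]
    ring

theorem uu_eq (V : Pt → ℝ) (k : ℕ) (x : Pt) :
    uu V k x = (1 / 16 : ℝ) ^ k * ∑ s : Fin k → Fin 4, ∑ s' : Fin k → Fin 4,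
      Real.exp (∑ n ∈ Finset.range k, V (x + pos s (n + 1) - pos s' (n + 1))) := by
  induction k generalizing x with
  | zero => simp [uu]
  | succ k ih =>
    have h1 : uu V (k + 1) x = (1 / 16) * ∑ i : Fin 4, ∑ j : Fin 4,
        Real.exp (V (x + stp i - stp j)) * uu V k (x + stp i - stp j) := rfl
    rw [h1, sum_cons, pow_succ' (1 / 16 : ℝ) k]
    simp only [sum_cons, ih, Finset.mul_sum]
    refine Finset.sum_congr rfl fun i _ => ?_
    rw [Finset.sum_comm]
    refine Finset.sum_congr rfl fun s _ => Finset.sum_congr rfl fun j _ =>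
      Finset.sum_congr rfl fun s' _ => ?_
    rw [Finset.sum_range_succ', pos_cons, pos_cons, pos_zero, pos_zero, add_zero, add_zero,
      Real.exp_add]
    have h2 : ∀ n, x + pos (Fin.cons i s : Fin (k + 1) → Fin 4) (n + 1 + 1) -
        pos (Fin.cons j s' : Fin (k + 1) → Fin 4) (n + 1 + 1) =
        x + stp i - stp j + pos s (n + 1) - pos s' (n + 1) := by
      intro n
      rw [pos_cons, pos_cons]
      abel
    simp only [h2]
    ring

end PL

theorem WW_eq_EP (β : ℝ) (N : ℕ) (o : ℕ → Pt → ℝ) :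
    WW β N o = EP N (fun l => wt β (fun n => o (n + 1)) l) 0 := by
  rw [PL.EP_wt_eq, WW]
  simp

end Pool.Agent.Helper98.LogPoly
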