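import Pool.Agent.Helper82.LogPoly.PLSlice

/-! Piece P7 PATHLAW of MP_b30792_pr: the part which does not use P5 (GaussVec). -/

set_option autoImplicit false

namespace Pool.Agent.Helper98.LogPoly

open MeasureTheory ProbabilityTheory

namespace PL

section

variable {Ω : Type*} [MeasurableSpace Ω] {P : Measure Ω} [IsProbabilityMeasure P]
  {o : ℕ → Pt → Ω → ℝ} {h : Pt → ℝ}

omit [MeasurableSpace Ω] in
theorem sum_eq_XX (β : ℝ) (T : ℕ) (o : ℕ → Pt → Ω → ℝ) (w : Ω) (s : Fin T → Fin 4) :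
    ∑ n ∈ Finset.range T, (β * o n (pos s (n + 1)) w - β ^ 2 / 2) =
      XX β T o w s - β ^ 2 * T / 2 := by
  rw [Finset.sum_sub_distrib, XX]
  simp only [Finset.sum_const, Finset.card_range, nsmul_eq_mul]
  ring

omit [MeasurableSpace Ω] in
theorem EP_eq_sum (β : ℝ) (T : ℕ) (o : ℕ → Pt → Ω → ℝ) (w : Ω) :
    EP T (fun l => wt β (fun n x => o n x w) l) 0 =
      ∑ s : Fin T → Fin 4, (1 / 4 : ℝ) ^ T * Real.exp (XX β T o w s - β ^ 2 * T / 2) := by
  rw [EP_wt_eq, Finset.mul_sum]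
  refine Finset.sum_congr rfl fun s _ => ?_
  rw [← sum_eq_XX]
  simp

omit [MeasurableSpace Ω] in
theorem WW_eq_sum (β : ℝ) (T : ℕ) (ω : ℕ → Pt → Ω → ℝ) (w : Ω) :
    WW β T (fun n x => ω n x w) = ∑ s : Fin T → Fin 4, (1 / 4 : ℝ) ^ T *
      Real.exp (XX β T (fun n x => ω (n + 1) x) w s - β ^ 2 * T / 2) := by
  rw [WW_eq_EP, ← EP_eq_sum]

theorem sum_card (T : ℕ) : ∑ _s : Fin T → Fin 4, (1 / 4 : ℝ) ^ T = 1 := by
  simp

theorem integrable_summand (ho : IsEnv P o h) (β : ℝ) (T : ℕ) (s : Fin T → Fin 4) :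
    Integrable (fun w => (1 / 4 : ℝ) ^ T * Real.exp (XX β T o w s - β ^ 2 * T / 2)) P := by
  have h1 := (integrable_exp_XX ho β T s 1).const_mul
    ((1 / 4 : ℝ) ^ T * Real.exp (-(β ^ 2 * T / 2)))
  refine h1.congr (Filter.Eventually.of_forall fun w => ?_)
  simp only [one_mul]
  rw [sub_eq_add_neg, Real.exp_add]
  ring

theorem integrable_WS (ho : IsEnv P o h) (β : ℝ) (T : ℕ) :
    Integrable (fun w => ∑ s : Fin T → Fin 4, (1 / 4 : ℝ) ^ T *
      Real.exp (XX β T o w s - β ^ 2 * T / 2)) P :=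
  integrable_finsetSum _ fun s _ => integrable_summand ho β T s

omit [MeasurableSpace Ω] in
theorem WS_pos (β : ℝ) (T : ℕ) (o : ℕ → Pt → Ω → ℝ) (w : Ω) :
    0 < ∑ s : Fin T → Fin 4, (1 / 4 : ℝ) ^ T * Real.exp (XX β T o w s - β ^ 2 * T / 2) :=
  Finset.sum_pos (fun s _ => by positivity) Finset.univ_nonempty

theorem integral_WS (ho : IsEnv P o h) (h0 : h 0 = 1) (β : ℝ) (T : ℕ) :
    ∫ w, ∑ s : Fin T → Fin 4, (1 / 4 : ℝ) ^ T *
      Real.exp (XX β T o w s - β ^ 2 * T / 2) ∂P = 1 := by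
  rw [integral_finsetSum _ fun s _ => integrable_summand ho β T s]
  refine Eq.trans ?_ (sum_card T)
  refine Finset.sum_congr rfl fun s _ => ?_
  rw [integral_const_mul]
  have h1 : ∫ w, Real.exp (XX β T o w s - β ^ 2 * T / 2) ∂P = 1 := by
    have h2 : ∀ w, Real.exp (XX β T o w s - β ^ 2 * T / 2) =
        Real.exp (-(β ^ 2 * T / 2)) * Real.exp (XX β T o w s) := by
      intro w
      rw [← Real.exp_add]
      congr 1
      ring
    simp only [h2]
    rw [integral_const_mul, integral_exp_XX ho h0, ← Real.exp_add]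
    simp
  rw [h1, mul_one]

theorem integrable_sqrt_WS (ho : IsEnv P o h) (β : ℝ) (T : ℕ) :
    Integrable (fun w => Real.sqrt (∑ s : Fin T → Fin 4, (1 / 4 : ℝ) ^ T *
      Real.exp (XX β T o w s - β ^ 2 * T / 2))) P := by
  have h1 := integrable_WS ho β T
  refine ((integrable_const (1 : ℝ)).add h1).mono
    (Real.continuous_sqrt.comp_aestronglyMeasurable h1.aestronglyMeasurable)
    (Filter.Eventually.of_forall fun w => ?_)
  have h2 := WS_pos β T o w
  simp only [Pi.add_apply]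
  rw [Real.norm_of_nonneg (Real.sqrt_nonneg _), Real.norm_of_nonneg (by positivity)]
  rw [Real.sqrt_le_left (by positivity)]
  nlinarith

theorem integrable_log_WS (ho : IsEnv P o h) (β : ℝ) (T : ℕ) :
    Integrable (fun w => Real.log (∑ s : Fin T → Fin 4, (1 / 4 : ℝ) ^ T *
      Real.exp (XX β T o w s - β ^ 2 * T / 2))) P := by
  classical
  have h1 := integrable_WS ho β T
  set s0 : Fin T → Fin 4 := fun _ => 0 with hs0
  have hX : HasGaussianLaw (fun w => XX β T o w s0) P := (XX_gauss ho β T).eval s0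
  have hXi : Integrable (fun w => XX β T o w s0) P := hX.integrable
  set C : ℝ := |Real.log ((1 / 4 : ℝ) ^ T) - β ^ 2 * T / 2| with hC
  have hb : Integrable (fun w => (∑ s : Fin T → Fin 4, (1 / 4 : ℝ) ^ T *
      Real.exp (XX β T o w s - β ^ 2 * T / 2)) + (|XX β T o w s0| + C)) P :=
    h1.add (hXi.abs.add (integrable_const C))
  refine hb.mono (h1.aemeasurable.log.aestronglyMeasurable)
    (Filter.Eventually.of_forall fun w => ?_)
  have h2 := WS_pos β T o w
  set S : ℝ := ∑ s : Fin T → Fin 4, (1 / 4 : ℝ) ^ T *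
      Real.exp (XX β T o w s - β ^ 2 * T / 2) with hS
  have hCn : 0 ≤ C := abs_nonneg _
  rw [Real.norm_of_nonneg (show 0 ≤ S + (|XX β T o w s0| + C) by positivity)]
  rw [Real.norm_eq_abs, abs_le]
  constructor
  · have h3 : (1 / 4 : ℝ) ^ T * Real.exp (XX β T o w s0 - β ^ 2 * T / 2) ≤ S :=
      Finset.single_le_sum (f := fun s : Fin T → Fin 4 => (1 / 4 : ℝ) ^ T *
        Real.exp (XX β T o w s - β ^ 2 * T / 2)) (fun s _ => by positivity)
        (Finset.mem_univ s0)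
    have h4 := Real.log_le_log (by positivity) h3
    rw [Real.log_mul (by positivity) (Real.exp_pos _).ne', Real.log_exp] at h4
    have h5 : -C ≤ Real.log ((1 / 4 : ℝ) ^ T) - β ^ 2 * T / 2 := neg_abs_le _
    have h6 := neg_abs_le (XX β T o w s0)
    linarith
  · have h3 := Real.log_le_sub_one_of_pos h2
    have h4 := abs_nonneg (XX β T o w s0)
    linarith

end

end PL

open PL

theorem integrable_sqrt_WW {Ω : Type*} [MeasurableSpace Ω] {P : Measure Ω}
    [IsProbabilityMeasure P] {ω : ℕ → Pt → Ω → ℝ} {h : Pt → ℝ} (hω : IsEnv P ω h)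
    (_h0 : h 0 = 1) (β : ℝ) (T : ℕ) :
    Integrable (fun w => Real.sqrt (WW β T (fun n x => ω n x w))) P := by
  simp only [WW_eq_sum]
  exact integrable_sqrt_WS (isEnv_shift hω) β T

theorem integral_WW {Ω : Type*} [MeasurableSpace Ω] {P : Measure Ω}
    [IsProbabilityMeasure P] {ω : ℕ → Pt → Ω → ℝ} {h : Pt → ℝ} (hω : IsEnv P ω h)
    (h0 : h 0 = 1) (β : ℝ) (T : ℕ) :
    Integrable (fun w => WW β T (fun n x => ω n x w)) P ∧
      ∫ w, WW β T (fun n x => ω n x w) ∂P = 1 := by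
  simp only [WW_eq_sum]
  exact ⟨integrable_WS (isEnv_shift hω) β T, integral_WS (isEnv_shift hω) h0 β T⟩

theorem integrable_log_WW {Ω : Type*} [MeasurableSpace Ω] {P : Measure Ω}
    [IsProbabilityMeasure P] {ω : ℕ → Pt → Ω → ℝ} {h : Pt → ℝ} (hω : IsEnv P ω h)
    (_h0 : h 0 = 1) (β : ℝ) (T : ℕ) :
    Integrable (fun w => Real.log (WW β T (fun n x => ω n x w))) P := by
  simp only [WW_eq_sum]
  exact integrable_log_WS (isEnv_shift hω) β T

end Pool.Agent.Helper98.LogPoly
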