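import Pool.Agent.Helper82.LogPoly.PLComb

/-! Piece P7 PATHLAW of MP_b30792_pr: Gaussian laws of path sums. -/

set_option autoImplicit false

namespace Pool.Agent.Helper98.LogPoly

open MeasureTheory ProbabilityTheory
open scoped ENNReal

namespace PL

theorem isEnv_shift {Ω : Type*} [MeasurableSpace Ω] {P : Measure Ω} {ω : ℕ → Pt → Ω → ℝ}
    {h : Pt → ℝ} (hω : IsEnv P ω h) : IsEnv P (fun n x => ω (n + 1) x) h where
  gauss := hω.gauss.comp_right (fun i : ℕ × Pt => (i.1 + 1, i.2))
  mean n x := hω.mean (n + 1) x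
  cov n m x y := by simpa using hω.cov (n + 1) (m + 1) x y

/-- the Gaussian path sums -/
noncomputable def XX {Ω : Type*} (β : ℝ) (T : ℕ) (o : ℕ → Pt → Ω → ℝ) (w : Ω)
    (s : Fin T → Fin 4) : ℝ :=
  ∑ n ∈ Finset.range T, β * o n (pos s (n + 1)) w

section

variable {Ω : Type*} [MeasurableSpace Ω] {P : Measure Ω} [IsProbabilityMeasure P]
  {o : ℕ → Pt → Ω → ℝ} {h : Pt → ℝ}

omit [IsProbabilityMeasure P] in
theorem hasGaussianLaw_of_process {ι : Type*} [Fintype ι] {X : ι → Ω → ℝ}
    (hX : IsGaussianProcess X P) : HasGaussianLaw (fun w i => X i w) P := by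
  classical
  let L : (↥(Finset.univ : Finset ι) → ℝ) →L[ℝ] (ι → ℝ) :=
    { toFun := fun x i => x ⟨i, Finset.mem_univ i⟩
      map_add' := by intro x y; ext; simp
      map_smul' := by intro c x; ext; simp }
  exact (hX.hasGaussianLaw Finset.univ).map L

omit [IsProbabilityMeasure P] in
theorem XX_gauss (ho : IsEnv P o h) (β : ℝ) (T : ℕ) : HasGaussianLaw (XX β T o) P := by
  classical
  have hproc : IsGaussianProcess (fun (s : Fin T → Fin 4) w => XX β T o w s) P := by
    refine ho.gauss.of_isGaussianProcess fun s => ?_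
    refine ⟨(Finset.range T).image (fun n => (n, pos s (n + 1))),
      { toFun := fun x => ∑ n ∈ (Finset.range T).attach,
          β * x ⟨(n.1, pos s (n.1 + 1)), Finset.mem_image_of_mem _ n.2⟩
        map_add' := ?_
        map_smul' := ?_
        cont := ?_ }, ?_⟩
    · intro x y
      simp [mul_add, Finset.sum_add_distrib]
    · intro c x
      simp only [Pi.smul_apply, smul_eq_mul, RingHom.id_apply, Finset.mul_sum]
      exact Finset.sum_congr rfl fun n _ => by ring
    · fun_prop
    · intro w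
      simp only [XX, ContinuousLinearMap.coe_mk', LinearMap.coe_mk, AddHom.coe_mk,
        Finset.restrict_def]
      exact (Finset.sum_attach (Finset.range T) (fun n => β * o n (pos s (n + 1)) w)).symm
  exact hasGaussianLaw_of_process hproc

omit [IsProbabilityMeasure P] in
theorem memLp_env (ho : IsEnv P o h) (n : ℕ) (x : Pt) : MemLp (o n x) 2 P :=
  (ho.gauss.hasGaussianLaw_eval (n, x)).memLp_two

theorem XX_mean (ho : IsEnv P o h) (β : ℝ) (T : ℕ) (s : Fin T → Fin 4) :
    ∫ w, XX β T o w s ∂P = 0 := by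
  unfold XX
  rw [integral_finsetSum]
  · refine Finset.sum_eq_zero fun n _ => ?_
    rw [integral_const_mul, ho.mean, mul_zero]
  · intro n _
    exact ((memLp_env ho n _).integrable (by norm_num)).const_mul _

omit [IsProbabilityMeasure P] in
theorem XX_cov (ho : IsEnv P o h) (β : ℝ) (T : ℕ) (s s' : Fin T → Fin 4) :
    ∫ w, XX β T o w s * XX β T o w s' ∂P =
      β ^ 2 * ∑ n ∈ Finset.range T, h (pos s (n + 1) - pos s' (n + 1)) := by
  have hint : ∀ n m x y, Integrable (fun w => β * o n x w * (β * o m y w)) P := by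
    intro n m x y
    have h1 := ((memLp_env ho n x).integrable_mul (memLp_env ho m y)).const_mul (β ^ 2)
    refine h1.congr (Filter.Eventually.of_forall fun w => ?_)
    simp only [Pi.mul_apply]
    ring
  unfold XX
  simp only [Finset.sum_mul_sum]
  rw [integral_finsetSum _ (fun n _ => integrable_finsetSum _ fun m _ => hint n m _ _)]
  rw [Finset.mul_sum]
  refine Finset.sum_congr rfl fun n hn => ?_
  rw [integral_finsetSum _ (fun m _ => hint n m _ _)]
  have h2 : ∀ m, ∫ w, β * o n (pos s (n + 1)) w * (β * o m (pos s' (m + 1)) w) ∂P =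
      if n = m then β ^ 2 * h (pos s (n + 1) - pos s' (m + 1)) else 0 := by
    intro m
    have h3 : ∀ w, β * o n (pos s (n + 1)) w * (β * o m (pos s' (m + 1)) w) =
        β ^ 2 * (o n (pos s (n + 1)) w * o m (pos s' (m + 1)) w) := fun w => by ring
    simp only [h3]
    rw [integral_const_mul, ho.cov]
    split_ifs <;> simp
  simp only [h2]
  rw [Finset.sum_ite_eq, if_pos hn]

omit [IsProbabilityMeasure P] in
theorem XX_var (ho : IsEnv P o h) (h0 : h 0 = 1) (β : ℝ) (T : ℕ) (s : Fin T → Fin 4) :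
    ∫ w, XX β T o w s * XX β T o w s ∂P = β ^ 2 * T := by
  rw [XX_cov ho]
  simp [h0]

theorem XX_law (ho : IsEnv P o h) (h0 : h 0 = 1) (β : ℝ) (T : ℕ) (s : Fin T → Fin 4) :
    P.map (fun w => XX β T o w s) = gaussianReal 0 (β ^ 2 * T).toNNReal := by
  have h1 : HasGaussianLaw (fun w => XX β T o w s) P := (XX_gauss ho β T).eval s
  rw [h1.map_eq_gaussianReal, XX_mean ho, variance_eq_sub h1.memLp_two]
  have h2 := XX_var ho h0 β T s
  have h3 : P[(fun w => XX β T o w s) ^ 2] = β ^ 2 * T := by
    rw [← h2]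
    refine integral_congr_ae (Filter.Eventually.of_forall fun w => ?_)
    simp only [Pi.pow_apply, sq]
  rw [h3, XX_mean ho]
  simp

theorem integrable_exp_XX (ho : IsEnv P o h) (β : ℝ) (T : ℕ) (s : Fin T → Fin 4) (t : ℝ) :
    Integrable (fun w => Real.exp (t * XX β T o w s)) P := by
  have h1 : HasGaussianLaw (fun w => XX β T o w s) P := (XX_gauss ho β T).eval s
  have h2 := h1.map_eq_gaussianReal
  have h3 := integrable_exp_mul_gaussianReal (μ := P[fun w => XX β T o w s])
    (v := Var[fun w => XX β T o w s; P].toNNReal) t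
  rw [← h2] at h3
  exact (integrable_map_measure (by fun_prop) h1.aemeasurable).1 h3

theorem integral_exp_XX (ho : IsEnv P o h) (h0 : h 0 = 1) (β : ℝ) (T : ℕ)
    (s : Fin T → Fin 4) :
    ∫ w, Real.exp (XX β T o w s) ∂P = Real.exp (β ^ 2 * T / 2) := by
  have h1 := mgf_gaussianReal (XX_law ho h0 β T s) 1
  simp only [mgf, one_mul, zero_add, one_pow, mul_one] at h1
  rw [h1, Real.coe_toNNReal _ (by positivity)]

end

end PL

end Pool.Agent.Helper98.LogPoly
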