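import Pool.Agent.Helper82.LogPoly.PLGauss

/-! Piece P7 PATHLAW of MP_b30792_pr: i.i.d. Gaussian slices form an environment. -/

set_option autoImplicit false

namespace Pool.Agent.Helper98.LogPoly

open MeasureTheory ProbabilityTheory
open scoped ENNReal

namespace PL

theorem slice_gauss {ν : Measure (Pt → ℝ)} [IsProbabilityMeasure ν] {H : Pt → ℝ}
    (hν : GaussSlice ν H) (F : Finset Pt) :
    IsGaussian (ν.map (fun ω => F.restrict ω)) := by
  classical
  refine isGaussian_of_map_eq_gaussianReal fun L => ?_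
  set c : Pt → ℝ := fun x => if hx : x ∈ F then L (Pi.single ⟨x, hx⟩ 1) else 0 with hc
  refine ⟨0, (∑ x ∈ F, ∑ y ∈ F, c x * c y * H (x - y)).toNNReal, ?_⟩
  rw [← hν F c, Measure.map_map (by fun_prop) (by fun_prop)]
  congr 1
  ext ω
  simp only [Function.comp_apply]
  have h1 : F.restrict ω = ∑ x : F, ω x.1 • (Pi.single x (1 : ℝ) : F → ℝ) := by
    ext y
    simp [Finset.sum_apply, Pi.single_apply]
  rw [h1, map_sum, ← Finset.sum_coe_sort F (fun x => c x * ω x)]
  refine Finset.sum_congr rfl fun x _ => ?_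
  rw [map_smul, smul_eq_mul, mul_comm, hc]
  simp

variable {ν : Measure (Pt → ℝ)} [IsProbabilityMeasure ν] {H : Pt → ℝ}

instance : IsProbabilityMeasure (muE ν) := by unfold muE; infer_instance

theorem muE_process (hν : GaussSlice ν H) :
    IsGaussianProcess (fun (i : ℕ × Pt) (e : ℕ → Pt → ℝ) => e i.1 i.2) (muE ν) := by
  classical
  constructor
  intro I
  set J : Finset ℕ := I.image Prod.fst with hJ
  set F : Finset Pt := I.image Prod.snd with hF
  have h1 : iIndepFun (fun (i : ℕ) (e : ℕ → Pt → ℝ) => F.restrict (e i)) (muE ν) :=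
    iIndepFun_infinitePi (X := fun (_ : ℕ) (ω : Pt → ℝ) => F.restrict ω) (by fun_prop)
  have h2 : iIndepFun (fun (i : J) (e : ℕ → Pt → ℝ) => F.restrict (e i.1)) (muE ν) :=
    h1.precomp Subtype.val_injective
  have h3 : HasGaussianLaw (fun (e : ℕ → Pt → ℝ) (i : J) => F.restrict (e i.1)) (muE ν) := by
    refine iIndepFun.hasGaussianLaw (fun i => ⟨?_⟩) h2
    have h4 : (muE ν).map (fun e : ℕ → Pt → ℝ => F.restrict (e i.1)) =
        ν.map (fun ω => F.restrict ω) := by
      have h5 : (fun e : ℕ → Pt → ℝ => F.restrict (e i.1)) =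
        (fun ω : Pt → ℝ => F.restrict ω) ∘ (fun e : ℕ → Pt → ℝ => e i.1) := rfl
      rw [h5, ← Measure.map_map (by fun_prop) (by fun_prop)]
      congr 1
      exact Measure.infinitePi_map_eval (fun _ : ℕ => ν) i.1
    rw [h4]
    exact slice_gauss hν F
  let L : (J → F → ℝ) →L[ℝ] (I → ℝ) :=
    { toFun := fun z p => z ⟨p.1.1, Finset.mem_image_of_mem _ p.2⟩
        ⟨p.1.2, Finset.mem_image_of_mem _ p.2⟩
      map_add' := by intro x y; ext; simp
      map_smul' := by intro c x; ext; simp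
      cont := by fun_prop }
  exact h3.map L

theorem integral_slice (n : ℕ) (f : (Pt → ℝ) → ℝ) (hf : Measurable f) :
    ∫ e, f (e n) ∂(muE ν) = ∫ ω, f ω ∂ν := by
  have h1 : (muE ν).map (fun e : ℕ → Pt → ℝ => e n) = ν :=
    Measure.infinitePi_map_eval (fun _ : ℕ => ν) n
  have h2 : ∫ ω, f ω ∂((muE ν).map (fun e : ℕ → Pt → ℝ => e n)) =
      ∫ e, f (e n) ∂(muE ν) :=
    integral_map (measurable_pi_apply n).aemeasurable hf.aestronglyMeasurable
  rw [← h2, h1]

omit [IsProbabilityMeasure ν] in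
theorem slice_mean (hν : GaussSlice ν H) (x : Pt) : ∫ ω, ω x ∂ν = 0 := by
  have h1 := hν {x} (fun _ => 1)
  simp only [Finset.sum_singleton, one_mul] at h1
  have h2 : ∫ ω, ω x ∂ν = ∫ y, y ∂(ν.map (fun ω => ω x)) := by
    rw [integral_map (measurable_pi_apply x).aemeasurable (by fun_prop)]
  rw [h2, h1]
  simp

theorem slice_memLp (hν : GaussSlice ν H) (x : Pt) : MemLp (fun ω : Pt → ℝ => ω x) 2 ν := by
  have h1 : HasGaussianLaw (fun ω : Pt → ℝ => ω x) ν := by
    have h2 : HasGaussianLaw (fun ω : Pt → ℝ => ({x} : Finset Pt).restrict ω) ν :=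
      ⟨slice_gauss hν {x}⟩
    exact h2.eval ⟨x, by simp⟩
  exact h1.memLp_two

omit [IsProbabilityMeasure ν] in
theorem slice_second (hν : GaussSlice ν H) (hH : PosDefKer H) (F : Finset Pt) (c : Pt → ℝ) :
    ∫ ω, (∑ x ∈ F, c x * ω x) ^ 2 ∂ν = ∑ x ∈ F, ∑ y ∈ F, c x * c y * H (x - y) := by
  have h1 := hν F c
  have h2 : ∫ ω, (∑ x ∈ F, c x * ω x) ^ 2 ∂ν =
      ∫ y, y ^ 2 ∂(ν.map (fun ω => ∑ x ∈ F, c x * ω x)) := by
    have m1 : ∀ z : Pt, Measurable (fun ω : Pt → ℝ => ω z) := fun z => measurable_pi_apply z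
    rw [integral_map ?_ (by fun_prop)]
    exact (Finset.measurable_fun_sum F fun x _ => (m1 x).const_mul (c x)).aemeasurable
  rw [h2, h1]
  have h3 := variance_fun_id_gaussianReal (μ := 0)
    (v := (∑ x ∈ F, ∑ y ∈ F, c x * c y * H (x - y)).toNNReal)
  rw [variance_eq_sub (by exact memLp_id_gaussianReal' 2 (by norm_num))] at h3
  have h4 : ∫ x, x ∂gaussianReal 0 (∑ x ∈ F, ∑ y ∈ F, c x * c y * H (x - y)).toNNReal = 0 := by
    simp
  rw [h4] at h3
  rw [Real.coe_toNNReal _ (hH.2 F c)] at h3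
  refine Eq.trans ?_ h3
  simp

theorem slice_cov (hν : GaussSlice ν H) (hH : PosDefKer H) (x y : Pt) :
    ∫ ω, ω x * ω y ∂ν = H (x - y) := by
  classical
  have hxx : ∀ z, ∫ ω, ω z * ω z ∂ν = H 0 := by
    intro z
    have h1 := slice_second hν hH {z} (fun _ => 1)
    simpa [sq] using h1
  by_cases hxy : x = y
  · subst hxy
    rw [hxx, sub_self]
  have h1 := slice_second hν hH {x, y} (fun _ => 1)
  have hint : ∀ a b, Integrable (fun ω : Pt → ℝ => ω a * ω b) ν := fun a b =>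
    (slice_memLp hν a).integrable_mul (slice_memLp hν b)
  have h2 : ∀ ω : Pt → ℝ, (∑ z ∈ ({x, y} : Finset Pt), (1 : ℝ) * ω z) ^ 2 =
      ω x * ω x + 2 * (ω x * ω y) + ω y * ω y := by
    intro ω
    rw [Finset.sum_pair hxy]
    ring
  simp only [h2] at h1
  have e1 : ∫ ω : Pt → ℝ, ω x * ω x + 2 * (ω x * ω y) + ω y * ω y ∂ν =
      ∫ ω : Pt → ℝ, ω x * ω x + 2 * (ω x * ω y) ∂ν + ∫ ω : Pt → ℝ, ω y * ω y ∂ν :=
    integral_add ((hint x x).add ((hint x y).const_mul 2)) (hint y y)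
  have e2 : ∫ ω : Pt → ℝ, ω x * ω x + 2 * (ω x * ω y) ∂ν =
      ∫ ω : Pt → ℝ, ω x * ω x ∂ν + ∫ ω : Pt → ℝ, 2 * (ω x * ω y) ∂ν :=
    integral_add (hint x x) ((hint x y).const_mul 2)
  rw [e1, e2, integral_const_mul, hxx, hxx] at h1
  simp only [Finset.sum_pair hxy, one_mul, sub_self] at h1
  have h3 : H (y - x) = H (x - y) := by rw [← neg_sub, hH.1]
  rw [h3] at h1
  linarith

theorem isEnv_muE (hν : GaussSlice ν H) (hH : PosDefKer H) :
    IsEnv (muE ν) (fun n x e => e n x) H where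
  gauss := muE_process hν
  mean n x := by
    rw [integral_slice n (fun ω => ω x) (by fun_prop), slice_mean hν]
  cov n m x y := by
    split_ifs with h
    · subst h
      rw [integral_slice n (fun ω => ω x * ω y) (by fun_prop), slice_cov hν hH]
    · have h1 : iIndepFun (fun (i : ℕ) (e : ℕ → Pt → ℝ) => e i) (muE ν) :=
        iIndepFun_infinitePi (X := fun (_ : ℕ) (ω : Pt → ℝ) => ω) (by fun_prop)
      have h2 : IndepFun (fun e : ℕ → Pt → ℝ => e n x) (fun e : ℕ → Pt → ℝ => e m y)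
          (muE ν) :=
        (h1.indepFun h).comp (φ := fun ω : Pt → ℝ => ω x) (ψ := fun ω : Pt → ℝ => ω y)
          (by fun_prop) (by fun_prop)
      have m1 : ∀ (k : ℕ) (z : Pt), Measurable (fun e : ℕ → Pt → ℝ => e k z) := fun k z =>
        (measurable_pi_apply z).comp (measurable_pi_apply k)
      rw [h2.integral_fun_mul_eq_mul_integral (m1 n x).aestronglyMeasurable
          (m1 m y).aestronglyMeasurable,
        integral_slice n (fun ω => ω x) (by fun_prop), slice_mean hν, zero_mul]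

end PL

end Pool.Agent.Helper98.LogPoly
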