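import Pool.Agent.Helper82.LogPoly.PLBase
import Pool.Agent.Helper57.LogPoly.GaussVec

/-! Piece P7 PATHLAW of MP_b30792_pr. -/

set_option autoImplicit false

namespace Pool.Agent.Helper98.LogPoly

open MeasureTheory ProbabilityTheory PL

theorem sqrt_comparison {Ω : Type*} [MeasurableSpace Ω] {P : Measure Ω}
    [IsProbabilityMeasure P] {ω : ℕ → Pt → Ω → ℝ} {h : Pt → ℝ} (hω : IsEnv P ω h)
    (h0 : h 0 = 1) {H : Pt → ℝ} {ν : Measure (Pt → ℝ)} [IsProbabilityMeasure ν]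
    (hν : GaussSlice ν H) (hH : PosDefKer H) (H0 : H 0 = 1) (hHh : ∀ x, H x ≤ h x)
    (β : ℝ) (T : ℕ) :
    ∫ w, Real.sqrt (WW β T (fun n x => ω n x w)) ∂P ≤
      ∫ e, Real.sqrt (EP T (fun l => wt β e l) 0) ∂(muE ν) := by
  have hP := isEnv_shift hω
  have hE := isEnv_muE hν hH
  have h1 : ∀ e : ℕ → Pt → ℝ, EP T (fun l => wt β e l) 0 =
      ∑ s : Fin T → Fin 4, (1 / 4 : ℝ) ^ T *
        Real.exp (XX β T (fun n x (e : ℕ → Pt → ℝ) => e n x) e s - β ^ 2 * T / 2) :=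
    fun e => EP_eq_sum β T (fun n x (e : ℕ → Pt → ℝ) => e n x) e
  simp only [WW_eq_sum, h1]
  have h2 : ∀ z : ℝ, (1 / 4 : ℝ) ^ T * Real.exp (z - β ^ 2 * T / 2) =
      ((1 / 4 : ℝ) ^ T * Real.exp (-(β ^ 2 * T / 2))) * Real.exp z := by
    intro z
    rw [mul_assoc, ← Real.exp_add]
    congr 2
    ring
  simp only [h2]
  refine kahane_sqrt (XX_gauss hP β T) (XX_gauss hE β T) (XX_mean hP β T) (XX_mean hE β T)
    (fun s s' => ?_) (k := β ^ 2 * T) (XX_var hP h0 β T) (XX_var hE H0 β T)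
    (c := fun _ => (1 / 4 : ℝ) ^ T * Real.exp (-(β ^ 2 * T / 2))) (fun _ => by positivity)
  rw [XX_cov hP, XX_cov hE]
  exact mul_le_mul_of_nonneg_left (Finset.sum_le_sum fun n _ => hHh _) (sq_nonneg β)

theorem replica_bound {Ω : Type*} [MeasurableSpace Ω] {P : Measure Ω}
    [IsProbabilityMeasure P] {ω : ℕ → Pt → Ω → ℝ} {h : Pt → ℝ} (hω : IsEnv P ω h)
    (h0 : h 0 = 1) (hnn : ∀ x, 0 ≤ h x) (β : ℝ) {b : ℝ} (hb : 1 < b) (T : ℕ) :
    -∫ w, Real.log (WW β T (fun n x => ω n x w)) ∂P ≤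
      (1 / (2 * (b - 1))) * Real.log (uu (fun x => b * β ^ 2 * h x) T 0) := by
  have hP := isEnv_shift hω
  simp only [WW_eq_sum]
  have h1 := replica_log (XX_gauss hP β T) (XX_mean hP β T) (XX_var hP h0 β T)
    (K := fun s s' => β ^ 2 * ∑ n ∈ Finset.range T, h (pos s (n + 1) - pos s' (n + 1)))
    (fun s s' => XX_cov hP β T s s')
    (fun s s' => mul_nonneg (sq_nonneg β) (Finset.sum_nonneg fun n _ => hnn _))
    (c := fun _ => (1 / 4 : ℝ) ^ T) (fun _ => by positivity) (sum_card T) hb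
  refine h1.trans (le_of_eq ?_)
  congr 2
  rw [uu_eq, Finset.mul_sum]
  refine Finset.sum_congr rfl fun s _ => ?_
  rw [Finset.mul_sum]
  refine Finset.sum_congr rfl fun s' _ => ?_
  rw [← mul_pow]
  congr 1
  · norm_num
  · simp only [zero_add, Finset.mul_sum]
    congr 1
    exact Finset.sum_congr rfl fun n _ => by ring

end Pool.Agent.Helper98.LogPoly
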